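import Mathlib

set_option autoImplicit false

/-! Linear algebra over a field with a derivation (modules with a connection). -/

namespace Pool.Agent.Zk44.UP

open Module

universe u1 u2 u3

section

variable {k : Type u1} {K : Type u2} {M : Type u3} [Field k] [Field K] [Algebra k K]
  [AddCommGroup M] [Module K M]
  [Module k M] [IsScalarTower k K M] (δ : Derivation k K K)
  (hδ : ∀ r, δ r = 0 → ∃ a : k, algebraMap k K a = r) (nb : M →ₗ[k] M)
  (hnb : ∀ (r : K) (m : M), nb (r • m) = δ r • m + r • nb m)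

include hδ hnb in
/-- **B1** -/
theorem indep_of_indep {ι : Type*} (η : ι → M) (hη : ∀ i, nb (η i) = 0)
    (h : LinearIndependent k η) : LinearIndependent K η := by
  classical
  rw [linearIndependent_iff'] at h ⊢
  intro s
  induction s using Finset.strongInduction with
  | H s ih =>
    intro g hg
    by_contra hcon
    push Not at hcon
    obtain ⟨i0, hi0, hgi0⟩ := hcon
    set g' : ι → K := fun i => (g i0)⁻¹ * g i with hg'
    have hrel : ∑ i ∈ s, g' i • η i = 0 := by
      have : ∑ i ∈ s, g' i • η i = (g i0)⁻¹ • ∑ i ∈ s, g i • η i := by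
        rw [Finset.smul_sum]
        exact Finset.sum_congr rfl fun i _ => by rw [hg', mul_smul]
      rw [this, hg, smul_zero]
    have h10 : g' i0 = 1 := inv_mul_cancel₀ hgi0
    have hnbrel : ∑ i ∈ s, δ (g' i) • η i = 0 := by
      have h1 := congrArg nb hrel
      rw [map_sum, map_zero] at h1
      rw [← h1]
      exact Finset.sum_congr rfl fun i _ => by rw [hnb, hη, smul_zero, add_zero]
    have h2 : ∑ i ∈ s.erase i0, δ (g' i) • η i = 0 := by
      have h3 := Finset.add_sum_erase s (fun i => δ (g' i) • η i) hi0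
      rw [hnbrel] at h3
      have h4 : δ (g' i0) • η i0 = 0 := by
        rw [h10, Derivation.map_one_eq_zero, zero_smul]
      rw [← h3, h4, zero_add]
    have h3 := ih (s.erase i0) (Finset.erase_ssubset hi0) _ h2
    have h4 : ∀ i ∈ s, δ (g' i) = 0 := by
      intro i hi
      by_cases hii : i = i0
      · rw [hii, h10, Derivation.map_one_eq_zero]
      · exact h3 i (Finset.mem_erase.2 ⟨hii, hi⟩)
    have h5 : ∀ i : ι, ∃ a : k, i ∈ s → algebraMap k K a = g' i := by
      intro i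
      by_cases hi : i ∈ s
      · obtain ⟨a, ha⟩ := hδ _ (h4 i hi)
        exact ⟨a, fun _ => ha⟩
      · exact ⟨0, fun h => absurd h hi⟩
    choose a ha using h5
    have h6 : ∑ i ∈ s, a i • η i = 0 := by
      rw [← hrel]
      exact Finset.sum_congr rfl fun i hi => by rw [← ha i hi, algebraMap_smul]
    have h7 := h s a h6 i0 hi0
    have h8 := ha i0 hi0
    rw [h7, map_zero, h10] at h8
    exact one_ne_zero h8.symm

/-- the map induced on a quotient -/
noncomputable def qnb (W : Submodule K M) (hW : ∀ m ∈ W, nb m ∈ W) : (M ⧸ W) →ₗ[k] (M ⧸ W) :=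
  (Submodule.Quotient.restrictScalarsEquiv k W).toLinearMap ∘ₗ
    ((W.restrictScalars k).mapQ (W.restrictScalars k) nb (fun m hm => hW m hm)) ∘ₗ
      (Submodule.Quotient.restrictScalarsEquiv k W).symm.toLinearMap

theorem qnb_mk (W : Submodule K M) (hW : ∀ m ∈ W, nb m ∈ W) (m : M) :
    qnb nb W hW (Submodule.Quotient.mk m) = Submodule.Quotient.mk (nb m) := rfl

include hnb in
theorem qnb_smul (W : Submodule K M) (hW : ∀ m ∈ W, nb m ∈ W) (r : K) (m : M ⧸ W) :
    qnb nb W hW (r • m) = δ r • m + r • qnb nb W hW m := by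
  obtain ⟨m, rfl⟩ := Submodule.Quotient.mk_surjective W m
  rw [← Submodule.Quotient.mk_smul, qnb_mk, qnb_mk, hnb]
  rfl

include hδ hnb in
/-- a `k`-basis of the kernel is `K`-independent, and spans the same -/
theorem exists_basis : ∃ (ι : Type u3) (e : ι → M), (∀ i, nb (e i) = 0) ∧ LinearIndependent K e ∧
    ∀ m, nb m = 0 → ∃ c : ι →₀ k, m = c.sum fun i a => a • e i := by
  obtain ⟨ι, ⟨b⟩⟩ : ∃ ι : Type u3, Nonempty (Basis ι k (LinearMap.ker nb)) :=
    ⟨_, ⟨Basis.ofVectorSpace k (LinearMap.ker nb)⟩⟩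
  have h0 : ∀ i, nb (b i : M) = 0 := fun i => LinearMap.mem_ker.1 (b i).2
  have h1 : LinearIndependent k fun i => (b i : M) :=
    b.linearIndependent.map' (LinearMap.ker nb).subtype (Submodule.ker_subtype _)
  refine ⟨ι, fun i => (b i : M), h0, indep_of_indep δ hδ nb hnb _ h0 h1, ?_⟩
  intro m hm
  refine ⟨b.repr ⟨m, hm⟩, ?_⟩
  have h1 := b.linearCombination_repr ⟨m, hm⟩
  have h2 := congrArg (LinearMap.ker nb).subtype h1
  rw [Finsupp.linearCombination_apply, Finsupp.sum, map_sum] at h2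
  simp only [map_smul] at h2
  exact h2.symm

theorem sum_eq_lc {ι : Type*} (e : ι → M) (c : ι →₀ k) :
    (c.sum fun i a => a • e i) =
      Finsupp.linearCombination K e (c.mapRange (algebraMap k K) (map_zero _)) := by
  rw [Finsupp.linearCombination_apply,
    Finsupp.sum_mapRange_index (h := fun i (a : K) => a • e i) (fun _ => zero_smul _ _)]
  exact Finsupp.sum_congr fun i _ => (algebraMap_smul K (c i) (e i)).symm

include hδ hnb in
/-- **B2** -/
theorem mem_of_rows (W : Submodule K M) (hW : ∀ m ∈ W, nb m ∈ W) {N : ℕ} (η : Fin N → M)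
    (hη : ∀ i, nb (η i) = 0) (X : Set (Fin N → K)) (hX : ∀ x ∈ X, ∑ i, x i • η i ∈ W)
    (hind : ∀ v : Fin N → k, (∀ x ∈ X, ∑ i, v i • x i = 0) → v = 0) : ∀ i, η i ∈ W := by
  classical
  obtain ⟨ι, e, he, hli, hsp⟩ := exists_basis δ hδ (qnb nb W hW) (qnb_smul δ nb hnb W hW)
  have h1 : ∀ i, ∃ c : ι →₀ k, (Submodule.Quotient.mk (η i) : M ⧸ W) =
      c.sum fun j a => a • e j := by
    intro i
    apply hsp
    rw [qnb_mk, hη]
    exact Submodule.Quotient.mk_zero W
  choose c hc using h1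
  have h2 : ∀ j, (fun i => c i j) = 0 := by
    intro j
    apply hind
    intro x hx
    have h3 : (∑ i, x i • (Submodule.Quotient.mk (η i) : M ⧸ W)) = 0 := by
      have h4 := (Submodule.Quotient.mk_eq_zero W).2 (hX x hx)
      rw [← h4, ← Submodule.mkQ_apply, map_sum]
      exact Finset.sum_congr rfl fun i _ => by rw [map_smul, Submodule.mkQ_apply]
    have h5 : Finsupp.linearCombination K e
        (∑ i, x i • (c i).mapRange (algebraMap k K) (map_zero _)) = 0 := by
      rw [map_sum, ← h3]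
      refine Finset.sum_congr rfl fun i _ => ?_
      rw [map_smul, hc i, sum_eq_lc (K := K)]
    have h6 : (∑ i, x i • (c i).mapRange (algebraMap k K) (map_zero _)) = 0 :=
      linearIndependent_iff.1 hli _ h5
    have h7 := DFunLike.congr_fun h6 j
    rw [Finsupp.finsetSum_apply, Finsupp.zero_apply] at h7
    rw [← h7]
    refine Finset.sum_congr rfl fun i _ => ?_
    rw [Finsupp.smul_apply, Finsupp.mapRange_apply, Algebra.smul_def, smul_eq_mul, mul_comm]
  intro i
  rw [← Submodule.Quotient.mk_eq_zero W, hc i]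
  have h8 : c i = 0 := by
    ext j
    exact congrFun (h2 j) i
  rw [h8, Finsupp.sum_zero_index]

/-- the `k`-space of the sums of `ϑ η`, `ϑ` in `Θ` and `nb η = 0` -/
def thetaSpan (Θ : Submodule k K) : Submodule k M :=
  Submodule.span k {ω : M | ∃ ϑ ∈ Θ, ∃ η : M, nb η = 0 ∧ ω = ϑ • η}

include hδ hnb in
/-- **B3** -/
theorem theta (Θ : Submodule k K) (hΘ : ∀ r, δ r ∈ Θ → δ r = 0) (m : M)
    (hm : m ∈ Submodule.span K {η : M | nb η = 0})
    (h : nb m ∈ Submodule.span k {ω : M | ∃ ϑ ∈ Θ, ∃ η : M, nb η = 0 ∧ ω = ϑ • η}) :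
    nb m = 0 := by
  classical
  obtain ⟨ι, e, he, hli, hsp⟩ := exists_basis δ hδ nb hnb
  have h1 : ∃ s : ι →₀ K, m = Finsupp.linearCombination K e s := by
    have h2 : Submodule.span K {η : M | nb η = 0} ≤
        LinearMap.range (Finsupp.linearCombination K e) := by
      rw [Submodule.span_le]
      intro η hη
      obtain ⟨c, hc⟩ := hsp η hη
      exact ⟨c.mapRange (algebraMap k K) (map_zero _), by rw [← sum_eq_lc (K := K), ← hc]⟩
    obtain ⟨s, hs⟩ := h2 hm
    exact ⟨s, hs.symm⟩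
  obtain ⟨s, rfl⟩ := h1
  have h3 : nb (Finsupp.linearCombination K e s) =
      Finsupp.linearCombination K e (s.mapRange δ (map_zero δ)) := by
    rw [Finsupp.linearCombination_apply, Finsupp.linearCombination_apply,
      Finsupp.sum_mapRange_index (h := fun i (a : K) => a • e i) (fun _ => zero_smul _ _),
      Finsupp.sum, map_sum, Finsupp.sum]
    exact Finset.sum_congr rfl fun i _ => by rw [hnb, he, smul_zero, add_zero]
  have h4 : ∃ t : ι →₀ K, (∀ j, t j ∈ Θ) ∧
      nb (Finsupp.linearCombination K e s) = Finsupp.linearCombination K e t := by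
    refine Submodule.span_induction (p := fun ω _ => ∃ t : ι →₀ K, (∀ j, t j ∈ Θ) ∧
      ω = Finsupp.linearCombination K e t) ?_ ?_ ?_ ?_ h
    · rintro _ ⟨ϑ, hϑ, η, hη, rfl⟩
      obtain ⟨c, hc⟩ := hsp η hη
      refine ⟨ϑ • c.mapRange (algebraMap k K) (map_zero _), fun j => ?_, ?_⟩
      · rw [Finsupp.smul_apply, Finsupp.mapRange_apply, smul_eq_mul, mul_comm,
          ← Algebra.smul_def]
        exact Θ.smul_mem _ hϑ
      · rw [map_smul, ← sum_eq_lc (K := K), ← hc]
    · exact ⟨0, fun j => Θ.zero_mem, by rw [map_zero]⟩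
    · rintro _ _ _ _ ⟨t, ht, rfl⟩ ⟨t', ht', rfl⟩
      exact ⟨t + t', fun j => Θ.add_mem (ht j) (ht' j), by rw [map_add]⟩
    · rintro a _ _ ⟨t, ht, rfl⟩
      refine ⟨algebraMap k K a • t, fun j => ?_, ?_⟩
      · rw [Finsupp.smul_apply, smul_eq_mul, ← Algebra.smul_def]
        exact Θ.smul_mem _ (ht j)
      · rw [map_smul, algebraMap_smul]
  obtain ⟨t, ht, h5⟩ := h4
  have h6 : s.mapRange δ (map_zero δ) = t := by
    rw [h3] at h5
    exact hli h5
  have h7 : s.mapRange δ (map_zero δ) = 0 := by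
    ext j
    rw [Finsupp.mapRange_apply, Finsupp.zero_apply]
    apply hΘ
    rw [← Finsupp.mapRange_apply (hf := map_zero δ), h6]
    exact ht j
  rw [h3, h7, map_zero]

include hnb in
/-- the `K`-span of the kernel is stable -/
theorem span_stable : ∀ m ∈ Submodule.span K {η : M | nb η = 0},
    nb m ∈ Submodule.span K {η : M | nb η = 0} := by
  intro m hm
  refine Submodule.span_induction (p := fun ω _ => nb ω ∈ Submodule.span K {η : M | nb η = 0})
    ?_ ?_ ?_ ?_ hm
  · intro η hη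
    rw [Set.mem_ofPred_eq] at hη
    rw [hη]
    exact Submodule.zero_mem _
  · rw [map_zero]
    exact Submodule.zero_mem _
  · intro x y _ _ hx hy
    rw [map_add]
    exact Submodule.add_mem _ hx hy
  · intro r x hx0 hx
    rw [hnb]
    exact Submodule.add_mem _ (Submodule.smul_mem _ _ hx0) (Submodule.smul_mem _ _ hx)

theorem theta_le (Θ : Submodule k K) :
    ∀ ω ∈ Submodule.span k {ω : M | ∃ ϑ ∈ Θ, ∃ η : M, nb η = 0 ∧ ω = ϑ • η},
      ω ∈ Submodule.span K {η : M | nb η = 0} := by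
  have h : Submodule.span k {ω : M | ∃ ϑ ∈ Θ, ∃ η : M, nb η = 0 ∧ ω = ϑ • η} ≤
      (Submodule.span K {η : M | nb η = 0}).restrictScalars k := by
    rw [Submodule.span_le]
    rintro _ ⟨ϑ, -, η, hη, rfl⟩
    exact (Submodule.span K {η : M | nb η = 0}).smul_mem ϑ (Submodule.subset_span hη)
  exact fun ω hω => h hω

include hδ hnb in
/-- the step of the inductions: either the classes of `ψ` are independent modulo the span of the
kernel, or a combination with constant coefficients is in the kernel -/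
theorem indep_or (Θ : Submodule k K) (hΘ : ∀ r, δ r ∈ Θ → δ r = 0) {P : ℕ} (ψ : Fin P → M)
    (hψ : ∀ q, nb (ψ q) ∈
      Submodule.span k {ω : M | ∃ ϑ ∈ Θ, ∃ η : M, nb η = 0 ∧ ω = ϑ • η}) :
    (∀ r : Fin P → K, ∑ q, r q • ψ q ∈ Submodule.span K {η : M | nb η = 0} → r = 0) ∨
      ∃ c : Fin P → k, (∃ q, c q ≠ 0) ∧ nb (∑ q, c q • ψ q) = 0 := by
  classical
  set H := Submodule.span K {η : M | nb η = 0} with hH
  have hst : ∀ m ∈ H, nb m ∈ H := span_stable δ nb hnb
  by_cases hli : LinearIndependent k fun q => (Submodule.Quotient.mk (ψ q) : M ⧸ H)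
  · left
    have h1 := indep_of_indep δ hδ (qnb nb H hst) (qnb_smul δ nb hnb H hst) _ (fun q => by
      rw [qnb_mk, Submodule.Quotient.mk_eq_zero]
      exact theta_le nb Θ _ (hψ q)) hli
    intro r hr
    have h2 : ∑ q, r q • (Submodule.Quotient.mk (ψ q) : M ⧸ H) = 0 := by
      have h4 := (Submodule.Quotient.mk_eq_zero H).2 hr
      rw [← h4, ← Submodule.mkQ_apply, map_sum]
      exact Finset.sum_congr rfl fun i _ => by rw [map_smul, Submodule.mkQ_apply]
    funext q
    exact Fintype.linearIndependent_iff.1 h1 r h2 q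
  · right
    rw [Fintype.linearIndependent_iff] at hli
    push Not at hli
    obtain ⟨c, hc, q, hq⟩ := hli
    refine ⟨c, ⟨q, hq⟩, ?_⟩
    refine theta δ hδ nb hnb Θ hΘ _ ?_ ?_
    · rw [← hH, ← Submodule.Quotient.mk_eq_zero, ← hc, ← Submodule.mkQ_apply, map_sum]
      refine Finset.sum_congr rfl fun i _ => ?_
      rw [← algebraMap_smul K, map_smul, Submodule.mkQ_apply, algebraMap_smul]
    · rw [map_sum]
      refine Submodule.sum_mem _ fun q _ => ?_
      rw [map_smul]
      exact Submodule.smul_mem _ _ (hψ q)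

/-- removing one of the `ψ` -/
theorem remove {P : ℕ} (ψ : Fin (P + 1) → M) (c : Fin (P + 1) → k) (q0 : Fin (P + 1))
    (hq0 : c q0 ≠ 0) (r : Fin (P + 1) → K) : ∃ a : K,
      (∑ q, r q • ψ q) - a • (∑ q, c q • ψ q) ∈
        Submodule.span K (Set.range fun q : Fin P => ψ (q0.succAbove q)) := by
  have hc0 : algebraMap k K (c q0) ≠ 0 := by
    rw [Ne, FaithfulSMul.algebraMap_eq_zero_iff]
    exact hq0
  refine ⟨r q0 / algebraMap k K (c q0), ?_⟩
  rw [Fin.sum_univ_succAbove (fun q => r q • ψ q) q0,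
    Fin.sum_univ_succAbove (fun q => c q • ψ q) q0, smul_add]
  have h1 : (r q0 / algebraMap k K (c q0)) • c q0 • ψ q0 = r q0 • ψ q0 := by
    rw [← algebraMap_smul K (c q0), smul_smul, div_mul_cancel₀ _ hc0]
  rw [h1, add_sub_add_left_eq_sub]
  refine Submodule.sub_mem _ (Submodule.sum_mem _ fun q _ => ?_)
    (Submodule.smul_mem _ _ (Submodule.sum_mem _ fun q _ => ?_))
  · exact Submodule.smul_mem _ _ (Submodule.subset_span ⟨q, rfl⟩)
  · rw [← algebraMap_smul K]
    exact Submodule.smul_mem _ _ (Submodule.subset_span ⟨q, rfl⟩)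

include hδ hnb in
/-- **B4** -/
theorem exists_rho (Θ : Submodule k K) (hΘ : ∀ r, δ r ∈ Θ → δ r = 0) {P : ℕ} (ψ : Fin P → M)
    (hψ : ∀ q, nb (ψ q) ∈
      Submodule.span k {ω : M | ∃ ϑ ∈ Θ, ∃ η : M, nb η = 0 ∧ ω = ϑ • η}) (v : M)
    (hv : v ∈ Submodule.span K {η : M | nb η = 0})
    (hv2 : v ∈ Submodule.span K (Set.range ψ)) :
    ∃ ρ : Fin P → M, (∀ q, nb (ρ q) = 0) ∧ v ∈ Submodule.span K (Set.range ρ) := by
  induction P generalizing v with
  | zero =>
    refine ⟨ψ, fun q => q.elim0, hv2⟩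
  | succ P ih =>
    obtain ⟨r, hr⟩ := (Submodule.mem_span_range_iff_exists_fun K).1 hv2
    rcases indep_or δ hδ nb hnb Θ hΘ ψ hψ with h | ⟨c, ⟨q0, hq0⟩, hc⟩
    · have h1 := h r (by rw [hr]; exact hv)
      refine ⟨fun _ => 0, fun _ => map_zero _, ?_⟩
      rw [← hr, h1]
      simp
    · obtain ⟨a, ha⟩ := remove ψ c q0 hq0 r
      rw [hr] at ha
      obtain ⟨ρ, hρ, hv3⟩ := ih (fun q => ψ (q0.succAbove q)) (fun q => hψ _)
        (v - a • ∑ q, c q • ψ q)
        (Submodule.sub_mem _ hv (Submodule.smul_mem _ _ (Submodule.subset_span hc))) ha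
      refine ⟨Fin.cons (∑ q, c q • ψ q) ρ, fun q => ?_, ?_⟩
      · refine Fin.cases ?_ (fun q => ?_) q
        · exact hc
        · exact hρ q
      · rw [Fin.range_cons]
        have h2 : v = (v - a • ∑ q, c q • ψ q) + a • ∑ q, c q • ψ q := by abel
        rw [h2]
        refine Submodule.add_mem _ (Submodule.span_mono (Set.subset_insert _ _) hv3)
          (Submodule.smul_mem _ _ (Submodule.subset_span (Set.mem_insert _ _)))

include hδ hnb in
/-- **B5**, general form -/
theorem exists_const_comb' (Θ : Submodule k K) (hΘ : ∀ r, δ r ∈ Θ → δ r = 0) {P : ℕ}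
    (ψ : Fin P → M) (hψ : ∀ q, nb (ψ q) ∈
      Submodule.span k {ω : M | ∃ ϑ ∈ Θ, ∃ η : M, nb η = 0 ∧ ω = ϑ • η}) (υ : M)
    (hυ : nb υ ∈ Submodule.span k {ω : M | ∃ ϑ ∈ Θ, ∃ η : M, nb η = 0 ∧ ω = ϑ • η})
    (h : υ ∈ Submodule.span K {η : M | nb η = 0} ⊔ Submodule.span K (Set.range ψ)) :
    ∃ c : Fin P → k, nb (υ - ∑ q, c q • ψ q) = 0 := by
  induction P with
  | zero =>
    refine ⟨fun _ => 0, ?_⟩
    have h1 : Submodule.span K (Set.range ψ) = ⊥ := by
      rw [Set.range_eq_empty, Submodule.span_empty]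
    rw [h1, sup_bot_eq] at h
    rw [Finset.univ_eq_empty, Finset.sum_empty, sub_zero]
    exact theta δ hδ nb hnb Θ hΘ υ h hυ
  | succ P ih =>
    obtain ⟨y, hy, z, hz, hyz⟩ := Submodule.mem_sup.1 h
    obtain ⟨r, hr⟩ := (Submodule.mem_span_range_iff_exists_fun K).1 hz
    rcases indep_or δ hδ nb hnb Θ hΘ ψ hψ with hi | ⟨c, ⟨q0, hq0⟩, hc⟩
    · have h1 : nb z ∈ Submodule.span K {η : M | nb η = 0} := by
        have h2 : nb z = nb υ - nb y := by rw [← hyz, map_add, add_sub_cancel_left]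
        rw [h2]
        exact Submodule.sub_mem _ (theta_le nb Θ _ hυ) (span_stable δ nb hnb y hy)
      have h2 : (fun q => δ (r q)) = 0 := by
        apply hi
        have h3 : ∑ q, δ (r q) • ψ q = nb z - ∑ q, r q • nb (ψ q) := by
          rw [← hr, map_sum, ← Finset.sum_sub_distrib]
          exact Finset.sum_congr rfl fun q _ => by rw [hnb, add_sub_cancel_right]
        rw [h3]
        exact Submodule.sub_mem _ h1 (Submodule.sum_mem _ fun q _ =>
          Submodule.smul_mem _ _ (theta_le nb Θ _ (hψ q)))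
      have h3 : ∀ q, ∃ a : k, algebraMap k K a = r q := fun q => hδ _ (congrFun h2 q)
      choose a ha using h3
      refine ⟨a, ?_⟩
      have h4 : υ - ∑ q, a q • ψ q = y := by
        have h5 : ∑ q, a q • ψ q = z := by
          rw [← hr]
          exact Finset.sum_congr rfl fun q _ => by rw [← ha q, algebraMap_smul]
        rw [h5, ← hyz, add_sub_cancel_right]
      refine theta δ hδ nb hnb Θ hΘ _ (by rw [h4]; exact hy) ?_
      rw [map_sub, map_sum]
      refine Submodule.sub_mem _ hυ (Submodule.sum_mem _ fun q _ => ?_)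
      rw [map_smul]
      exact Submodule.smul_mem _ _ (hψ q)
    · obtain ⟨a, ha⟩ := remove ψ c q0 hq0 r
      rw [hr] at ha
      obtain ⟨c', hc'⟩ := ih (fun q => ψ (q0.succAbove q)) (fun q => hψ _) (by
        have h2 : υ = (y + a • ∑ q, c q • ψ q) + (z - a • ∑ q, c q • ψ q) := by
          rw [← hyz]; abel
        rw [h2]
        exact Submodule.add_mem_sup
          (Submodule.add_mem _ hy (Submodule.smul_mem _ _ (Submodule.subset_span hc))) ha)
      refine ⟨q0.insertNth 0 c', ?_⟩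
      rw [Fin.sum_univ_succAbove _ q0]
      simp only [Fin.insertNth_apply_same, Fin.insertNth_apply_succAbove, zero_smul, zero_add]
      exact hc'

include hδ hnb in
/-- **B5** -/
theorem exists_const_comb (Θ : Submodule k K) (hΘ : ∀ r, δ r ∈ Θ → δ r = 0) {P : ℕ}
    (ψ : Fin P → M) (hψ : ∀ q, nb (ψ q) ∈
      Submodule.span k {ω : M | ∃ ϑ ∈ Θ, ∃ η : M, nb η = 0 ∧ ω = ϑ • η}) (υ : M)
    (hυ : nb υ ∈ Submodule.span k {ω : M | ∃ ϑ ∈ Θ, ∃ η : M, nb η = 0 ∧ ω = ϑ • η})
    (h : υ ∈ Submodule.span K (Set.range ψ)) :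
    ∃ c : Fin P → k, nb (υ - ∑ q, c q • ψ q) = 0 :=
  exists_const_comb' δ hδ nb hnb Θ hΘ ψ hψ υ hυ (Submodule.mem_sup_right h)

end

end Pool.Agent.Zk44.UP
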